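import Pool.Agent.helper84.QI.Spec

set_option autoImplicit false

namespace Pool.Agent.QI

open Subgroup

/-- A finite cyclic group has at most one element of order two. -/
theorem SYF_uniq {K : Type} [Group K] [Finite K] (hK : IsCyclic K) (a b : K)
    (haa : a * a = 1) (hbb : b * b = 1) (ha1 : a ≠ 1) (hb1 : b ≠ 1) : a = b := by
  classical
  have := Fintype.ofFinite K
  by_contra hab
  have h := IsCyclic.card_pow_eq_one_le (α := K) (n := 2) (by norm_num)
  have hsub : ({1, a, b} : Finset K) ⊆ Finset.univ.filter (fun x : K => x ^ 2 = 1) := by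
    intro x hx
    simp only [Finset.mem_insert, Finset.mem_singleton] at hx
    simp only [Finset.mem_filter, Finset.mem_univ, true_and]
    rcases hx with rfl | rfl | rfl
    · simp
    · rw [sq, haa]
    · rw [sq, hbb]
  have h3 : ({1, a, b} : Finset K).card = 3 := by
    rw [Finset.card_insert_of_notMem, Finset.card_insert_of_notMem, Finset.card_singleton]
    · simpa using hab
    · simp only [Finset.mem_insert, Finset.mem_singleton, not_or]
      exact ⟨fun h => ha1 h.symm, fun h => hb1 h.symm⟩
  have := Finset.card_le_card hsub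
  omega

/-- The element of order two of the centre of a nontrivial finite `2`-group. -/
theorem SYF_center {T : Type} [Group T] [Finite T] (hT : IsPGroup 2 T) (i : T) (hi1 : i ≠ 1) :
    ∃ z : T, z * z = 1 ∧ z ≠ 1 ∧ ∀ t : T, z * t = t * z := by
  have : Fact (Nat.Prime 2) := ⟨Nat.prime_two⟩
  have : Nontrivial T := ⟨i, 1, hi1⟩
  have := hT.center_nontrivial
  obtain ⟨n, hn, hcard⟩ := (hT.to_subgroup (center T)).nontrivial_iff_card.1 inferInstance
  have hd : 2 ∣ Nat.card (center T) := by
    rw [hcard]; exact dvd_pow_self 2 hn.ne'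
  obtain ⟨z, hz⟩ := exists_prime_orderOf_dvd_card' 2 hd
  refine ⟨z, ?_, ?_, ?_⟩
  · have h := pow_orderOf_eq_one z
    rw [hz, sq] at h
    exact_mod_cast congrArg Subtype.val h
  · intro h
    have : z = 1 := Subtype.ext h
    rw [this, orderOf_one] at hz
    omega
  · intro t
    exact ((mem_center_iff.1 z.2) t).symm

theorem SYF : SYF_stmt := by
  intro F _ _ i hii hi1 hcyc
  classical
  have : Fact (Nat.Prime 2) := ⟨Nat.prime_two⟩
  have hord : orderOf i = 2 := orderOf_eq_prime (by rw [sq, hii]) hi1
  have hzp : IsPGroup 2 (zpowers i) := by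
    refine IsPGroup.of_card (n := 1) ?_
    rw [Nat.card_zpowers, hord, pow_one]
  obtain ⟨T, hT⟩ := hzp.exists_le_sylow
  have hiT : i ∈ (T : Subgroup F) := hT (mem_zpowers i)
  obtain ⟨z, hzz, hz1, hzc⟩ := SYF_center T.2 (⟨i, hiT⟩ : (T : Subgroup F))
    (fun h => hi1 (congrArg Subtype.val h))
  have hzF : (z : F) * i = i * z := congrArg Subtype.val (hzc ⟨i, hiT⟩)
  have hzzF : (z : F) * z = 1 := by exact_mod_cast congrArg Subtype.val hzz
  have hz1F : (z : F) ≠ 1 := fun h => hz1 (Subtype.ext h)
  -- `z = i`
  have hzi : (z : F) = i := by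
    have hK1 : closure ({(z : F), i} : Set F) ≤ centralizer ({i} : Set F) := by
      rw [closure_le]
      intro x hx
      rcases hx with rfl | hx
      · exact mem_centralizer_singleton_iff.2 hzF
      · rw [Set.mem_singleton_iff] at hx
        rw [hx]
        exact mem_centralizer_singleton_iff.2 rfl
    have hK2 : closure ({(z : F), i} : Set F) ≤ (T : Subgroup F) := by
      rw [closure_le]
      intro x hx
      rcases hx with rfl | hx
      · exact z.2
      · rw [Set.mem_singleton_iff] at hx
        rw [hx]; exact hiT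
    have hKc := hcyc _ hK1 (T.2.to_le hK2)
    have hzK : (z : F) ∈ closure ({(z : F), i} : Set F) := subset_closure (by simp)
    have hiK : i ∈ closure ({(z : F), i} : Set F) := subset_closure (by simp)
    have := SYF_uniq hKc ⟨z, hzK⟩ ⟨i, hiK⟩ (Subtype.ext hzzF) (Subtype.ext hii)
      (fun h => hz1F (congrArg Subtype.val h)) (fun h => hi1 (congrArg Subtype.val h))
    exact congrArg Subtype.val this
  have hTc : (T : Subgroup F) ≤ centralizer ({i} : Set F) := by
    intro t ht
    have h := congrArg Subtype.val (hzc ⟨t, ht⟩)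
    have h' : (z : F) * t = t * z := h
    rw [hzi] at h'
    exact mem_centralizer_singleton_iff.2 h'.symm
  have hTcyc : IsCyclic (T : Subgroup F) := hcyc _ hTc T.2
  have hdvd : 2 ∣ Nat.card F := hord ▸ orderOf_dvd_natCard i
  have hmin : (Nat.card F).minFac = 2 := (Nat.minFac_eq_two_iff _).2 hdvd
  have : IsCyclic (T : Subgroup F) := hTcyc
  refine ⟨(T : Subgroup F), IsCyclic.commGroup,
    MonoidHom.transferSylow T (IsCyclic.normalizer_le_centralizer hmin hTcyc), ?_, ?_⟩
  · have h1 := MonoidHom.not_dvd_card_ker_transferSylow T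
      (IsCyclic.normalizer_le_centralizer hmin hTcyc)
    rwa [← Nat.not_even_iff_odd, even_iff_two_dvd]
  · intro y
    exact T.2 _

end Pool.Agent.QI
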